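import Pool.Agent.IncLog.Config

set_option autoImplicit false

namespace Pool.Agent.Results.MP_258a97_co.SingleFamily

open Pool.Agent

/-- left ends of pairwise disjoint vertical strips -/
noncomputable def X : ℕ → ℝ
  | 0 => 0
  | (m+1) => X m + IncLog.K m + 1

lemma X_lt (m d : ℕ) : X m + IncLog.K m < X (m + 1 + d) := by
  induction d with
  | zero => simp only [add_zero, X]; linarith
  | succ d ih =>
    have : (0:ℝ) ≤ IncLog.K (m + 1 + d) := by positivity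
    rw [← add_assoc]
    simp only [X] at ih ⊢
    linarith

lemma disj {m m' t s r t' s' r' : ℕ} (h : m < m') :
    IncLog.curve (X m) m t s r ∩ IncLog.curve (X m') m' t' s' r' = ∅ := by
  obtain ⟨d, rfl⟩ := Nat.exists_eq_add_of_le (Nat.succ_le_of_lt h)
  rw [Set.eq_empty_iff_forall_notMem]
  rintro ⟨a, b⟩ ⟨⟨-, h2, -⟩, ⟨h3, -, -⟩⟩
  have := X_lt m d
  simp only [Nat.succ_eq_add_one] at h3
  simp only at h2
  linarith

theorem result : ∃ L : Set (Set (ℝ × ℝ)),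
    (∀ γ ∈ L, ∃ f : unitInterval → ℝ × ℝ, Continuous f ∧ Function.Injective f ∧ Set.range f = γ) ∧
    (∀ γ₁ ∈ L, ∀ γ₂ ∈ L, γ₁ ≠ γ₂ → (γ₁ ∩ γ₂).encard ≤ 8) ∧
    (∀ S : Finset (ℝ × ℝ), S.card = 9 →
      {γ : Set (ℝ × ℝ) | γ ∈ L ∧ (↑S : Set (ℝ × ℝ)) ⊆ γ}.encard ≤ 1) ∧
    ∀ N : ℕ, ∃ n : ℕ, N ≤ n ∧ ∃ (P : Finset (ℝ × ℝ)) (Γ : Finset (Set (ℝ × ℝ))),
      (↑Γ : Set (Set (ℝ × ℝ))) ⊆ L ∧ P.card = n ∧ Γ.card = n ∧
      (1/4 : ℝ) * (n : ℝ) ^ ((4 : ℝ) / 3) * (Real.log n) ^ ((1 : ℝ) / 6) ≤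
        ({x : (ℝ × ℝ) × Set (ℝ × ℝ) | x.1 ∈ P ∧ x.2 ∈ Γ ∧ x.1 ∈ x.2}.ncard : ℝ) := by
  have hpair : ∀ γ₁ ∈ {γ : Set (ℝ × ℝ) | ∃ m t s r : ℕ, γ = IncLog.curve (X m) m t s r},
      ∀ γ₂ ∈ {γ : Set (ℝ × ℝ) | ∃ m t s r : ℕ, γ = IncLog.curve (X m) m t s r},
      γ₁ ≠ γ₂ → (γ₁ ∩ γ₂).encard ≤ 8 := by
    rintro _ ⟨m, t, s, r, rfl⟩ _ ⟨m', t', s', r', rfl⟩ hne
    rcases lt_trichotomy m m' with h | h | h
    · rw [disj h]; simp
    · subst h
      apply IncLog.curve_inter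
      intro h
      simp only [Prod.mk.injEq] at h
      obtain ⟨rfl, rfl, rfl⟩ := h
      exact hne rfl
    · rw [Set.inter_comm, disj h]; simp
  refine ⟨{γ | ∃ m t s r : ℕ, γ = IncLog.curve (X m) m t s r}, ?_, hpair, ?_, ?_⟩
  · rintro _ ⟨m, t, s, r, rfl⟩
    exact IncLog.curve_arc (X m) m t s r
  · intro S hS
    rw [Set.encard_le_one_iff]
    rintro a b ⟨ha, ha'⟩ ⟨hb, hb'⟩
    by_contra hne
    have h1 := hpair a ha b hb hne
    have h2 : (↑S : Set (ℝ × ℝ)).encard ≤ (a ∩ b).encard := Set.encard_le_encard (Set.subset_inter ha' hb')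
    rw [Set.encard_coe_eq_coe_finsetCard, hS] at h2
    have := h2.trans h1
    norm_num at this
  · intro N
    set j : ℕ := N + 1 with hj
    have hjpos : 0 < j := by omega
    set m : ℕ := 2 * j^2 - 1 with hm
    have hm1 : m + 1 = 2 * j^2 := by
      have : 1 ≤ j^2 := Nat.one_le_pow _ _ hjpos
      omega
    set M : ℕ := 4 * j with hM
    obtain ⟨P, Γ, h1, h2, h3, h4⟩ := IncLog.config (X m) m M (M * 2^m) (M * 2^m * IncLog.K m) rfl rfl
      (by omega) (by rw [hm1, hM]; nlinarith)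
    set n : ℕ := M * 2^m * IncLog.K m * (M * 2^m) * M with hn
    have hK : 0 < IncLog.K m := IncLog.K_pos m
    have hKp : (0:ℝ) < IncLog.K m := by exact_mod_cast hK
    have hnpos : 0 < n := by positivity
    have hn' : (0:ℝ) < n := by exact_mod_cast hnpos
    have hNn : N ≤ n := by
      have a1 : N ≤ M := by omega
      have a2 : 0 < M * 2^m * IncLog.K m * (M * 2^m) := by positivity
      calc N ≤ M := a1
        _ ≤ n := Nat.le_mul_of_pos_left _ a2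
    refine ⟨n, hNn, P, Γ, ?_, h2, h3, ?_⟩
    · intro γ hγ
      obtain ⟨t, s, r, h⟩ := h1 γ hγ
      exact ⟨m, t, s, r, h⟩
    · have hKe : (IncLog.K m : ℝ) = (2 * j^2) * 2^m := by
        rw [IncLog.K_eq, hm1]; push_cast; ring
      have hne : (n : ℝ) = IncLog.K m * (64 * j^3 * (2^m)^2) := by
        rw [hn, hM]; push_cast; ring
      -- the logarithm
      have hlog : Real.log n ≤ 15 * j^2 := by
        have a1 : (n : ℝ) = 2^7 * (j:ℝ)^5 * 2^(3*m) := by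
          rw [hne, hKe, pow_mul' (2:ℝ) 3 m]; ring
        have a2 : (j : ℝ) ≤ 2^j := by exact_mod_cast Nat.lt_two_pow_self.le
        have a3 : (n : ℝ) ≤ 2^(7 + 5 * j + 3 * m) := by
          rw [a1, pow_add, pow_add, pow_mul' (2:ℝ) 5 j]
          gcongr
        have a4 : Real.log n ≤ (7 + 5 * j + 3 * m : ℕ) * Real.log 2 := by
          rw [← Real.log_pow]
          exact Real.log_le_log hn' (by exact_mod_cast a3)
        have a5 : Real.log 2 < 1 := by
          have := Real.log_two_lt_d9; linarith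
        have a6 : Real.log 2 > 0 := Real.log_pos (by norm_num)
        have a7 : ((7 + 5 * j + 3 * m : ℕ) : ℝ) = 4 + 5 * j + 6 * j^2 := by
          have : 7 + 5 * j + 3 * m = 4 + 5 * j + 6 * j^2 := by omega
          rw [this]; push_cast; ring
        rw [a7] at a4
        have a8 : (1:ℝ) ≤ j := by exact_mod_cast hjpos
        have a9 : (j:ℝ) ≤ j^2 := by nlinarith
        have a10 : (1:ℝ) ≤ j^2 := by nlinarith
        calc Real.log n ≤ (4 + 5 * j + 6 * j^2) * Real.log 2 := a4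
          _ ≤ (4 + 5 * j + 6 * j^2) * 1 := by
            apply mul_le_mul_of_nonneg_left a5.le; positivity
          _ ≤ 15 * j^2 := by nlinarith
      have hlog0 : 0 ≤ Real.log n := Real.log_nonneg (by exact_mod_cast hnpos)
      have h7 : (n : ℝ)^((4:ℝ)/3) = n * (n : ℝ)^((1:ℝ)/3) := by
        rw [show (4:ℝ)/3 = 1 + 1/3 by norm_num, Real.rpow_add hn', Real.rpow_one]
      have hmain : (1/4 : ℝ) * (n : ℝ)^((1:ℝ)/3) * (Real.log n) ^ ((1 : ℝ) / 6) ≤ IncLog.K m := by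
        rw [← pow_le_pow_iff_left₀ (by positivity) hKp.le (by norm_num : (6:ℕ) ≠ 0)]
        have b1 : ((n : ℝ)^((1:ℝ)/3))^6 = (n:ℝ)^2 := by
          rw [← Real.rpow_natCast, ← Real.rpow_mul hn'.le, ← Real.rpow_natCast]; norm_num
        have b2 : ((Real.log n) ^ ((1 : ℝ) / 6))^6 = Real.log n := by
          rw [← Real.rpow_natCast, ← Real.rpow_mul hlog0]; norm_num
        rw [mul_pow, mul_pow, b1, b2]
        have hv : (0:ℝ) < 2^m := by positivity
        have hj' : (0:ℝ) < j := by exact_mod_cast hjpos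
        calc (1/4 : ℝ)^6 * (n:ℝ)^2 * Real.log n ≤ (1/4 : ℝ)^6 * (n:ℝ)^2 * (15 * j^2) := by
              apply mul_le_mul_of_nonneg_left hlog; positivity
          _ ≤ (1/4 : ℝ)^6 * (n:ℝ)^2 * (16 * j^2) := by
              apply mul_le_mul_of_nonneg_left _ (by positivity)
              nlinarith [pow_pos hj' 2]
          _ = (IncLog.K m : ℝ)^6 := by
              rw [hne, hKe]; ring
      have h4' : (n : ℝ) * IncLog.K m ≤ ({x : (ℝ × ℝ) × Set (ℝ × ℝ) | x.1 ∈ P ∧ x.2 ∈ Γ ∧ x.1 ∈ x.2}.ncard : ℝ) := by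
        exact_mod_cast h4
      refine le_trans ?_ h4'
      rw [h7]
      calc (1/4 : ℝ) * (n * (n : ℝ)^((1:ℝ)/3)) * (Real.log n) ^ ((1 : ℝ) / 6)
          = n * ((1/4 : ℝ) * (n : ℝ)^((1:ℝ)/3) * (Real.log n) ^ ((1 : ℝ) / 6)) := by ring
        _ ≤ n * IncLog.K m := mul_le_mul_of_nonneg_left hmain hn'.le

end Pool.Agent.Results.MP_258a97_co.SingleFamily
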